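import Pool.Agent.J4H98.HP.Jobs2

/-!
# Project HP, stage 2: uniform limits of rational functions on a circle
-/

set_option linter.unusedSectionVars false

open Polynomial Matrix Filter Topology

namespace Pool.Agent.J4H4.HP

open Pool.Agent.TH828.DM
open Pool.Agent.N814.DR (slash SmallAtInfinity)
open Pool.Agent.J4H98.HP (Sta Far Per GB)

variable {C : Type} [NontriviallyNormedField C] [IsUltrametricDist C]

/-- `g` is on the circle `|z| = |r|` a uniform limit of rational functions -/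
def Ap (r : C) (g : C → C) : Prop := ∀ ε : ℝ, 0 < ε → ∃ P Q : C[X],
  (∀ z, ‖z‖ = ‖r‖ → Q.eval z ≠ 0) ∧ ∀ z, ‖z‖ = ‖r‖ → ‖g z - P.eval z / Q.eval z‖ ≤ ε

lemma regOKr {r : C} (hr : r ≠ 0) : RegOK (fun _ : Unit => (0 : C)) r r :=
  ⟨hr, le_rfl, fun _ => by rw [norm_zero]; exact norm_pos_iff.2 hr,
    fun i j h => absurd (Subsingleton.elim i j) h⟩

lemma mem_regr {r z : C} : z ∈ Reg (fun _ : Unit => (0 : C)) r r ↔ ‖z‖ = ‖r‖ := by
  unfold Reg
  simp only [Set.mem_ofPred_eq, sub_zero, forall_const]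
  exact ⟨fun h => le_antisymm h.1 h.2, fun h => ⟨h.le, h.ge⟩⟩

lemma Ap.congr {r : C} {g h : C → C} (hg : Ap r g) (H : ∀ z, ‖z‖ = ‖r‖ → g z = h z) : Ap r h := by
  intro ε hε
  obtain ⟨P, Q, h1, h2⟩ := hg ε hε
  exact ⟨P, Q, h1, fun z hz => by rw [← H z hz]; exact h2 z hz⟩

lemma ap_rat {r : C} (P Q : C[X]) (hQ : ∀ z, ‖z‖ = ‖r‖ → Q.eval z ≠ 0) :
    Ap r (fun z => P.eval z / Q.eval z) := fun ε hε =>
  ⟨P, Q, hQ, fun z _ => by rw [sub_self, norm_zero]; exact hε.le⟩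

lemma ap_poly {r : C} (P : C[X]) : Ap r (fun z => P.eval z) :=
  (ap_rat P 1 (by simp)).congr (by simp)

lemma ap_of_poly {r : C} {g : C → C}
    (H : ∀ ε : ℝ, 0 < ε → ∃ P : C[X], ∀ z, ‖z‖ = ‖r‖ → ‖g z - P.eval z‖ ≤ ε) : Ap r g := by
  intro ε hε
  obtain ⟨P, hP⟩ := H ε hε
  exact ⟨P, 1, by simp, fun z hz => by simpa using hP z hz⟩

lemma ap_lim {r : C} {g : C → C}
    (H : ∀ ε : ℝ, 0 < ε → ∃ h : C → C, Ap r h ∧ ∀ z, ‖z‖ = ‖r‖ → ‖g z - h z‖ ≤ ε) : Ap r g := by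
  intro ε hε
  obtain ⟨h, h1, h2⟩ := H ε hε
  obtain ⟨P, Q, hQ, hPQ⟩ := h1 ε hε
  refine ⟨P, Q, hQ, fun z hz => ?_⟩
  have e : g z - P.eval z / Q.eval z = (g z - h z) + (h z - P.eval z / Q.eval z) := by ring
  rw [e]
  exact norm_add_le_of (h2 z hz) (hPQ z hz)

lemma Ap.add {r : C} {g h : C → C} (hg : Ap r g) (hh : Ap r h) : Ap r (fun z => g z + h z) := by
  intro ε hε
  obtain ⟨P, Q, h1, h2⟩ := hg ε hε
  obtain ⟨P', Q', h1', h2'⟩ := hh ε hε
  refine ⟨P * Q' + P' * Q, Q * Q', fun z hz => ?_, fun z hz => ?_⟩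
  · rw [eval_mul]
    exact mul_ne_zero (h1 z hz) (h1' z hz)
  · have a1 := h1 z hz
    have a2 := h1' z hz
    have e : g z + h z - (P * Q' + P' * Q).eval z / (Q * Q').eval z =
        (g z - P.eval z / Q.eval z) + (h z - P'.eval z / Q'.eval z) := by
      rw [eval_add, eval_mul, eval_mul, eval_mul]
      field_simp
      ring
    rw [e]
    exact norm_add_le_of (h2 z hz) (h2' z hz)

variable [CompleteSpace C] [IsAlgClosed C] {q : ℕ}

/-- such functions are bounded on the circle and have a residue -/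
lemma Ap.good (hq : (q : C) = 0) (hq2 : 2 ≤ q) {r : C} (hr : r ≠ 0) {g : C → C} (hg : Ap r g) :
    (∃ B : ℝ, 0 ≤ B ∧ ∀ z, ‖z‖ = ‖r‖ → ‖g z‖ ≤ B) ∧ ∃ v, HasRes q g 0 r v := by
  obtain ⟨⟨B, hB0, hB⟩, v0, v, h1, h2, h3⟩ := good_of_approx (g := g) hq hq2 (regOKr hr) (fun ε hε => by
    obtain ⟨P, Q, hQ, hPQ⟩ := hg ε hε
    refine ⟨P, Q, fun z hz => hQ z (mem_regr.1 hz), fun z hz => hPQ z ?_⟩
    exact mem_regr.1 ((regOKr hr).circ_sub hz))
  exact ⟨⟨B, hB0, fun z hz => hB z (Or.inl (by rwa [sub_zero]))⟩, v0, h1⟩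

lemma Ap.mul (hq : (q : C) = 0) (hq2 : 2 ≤ q) {r : C} (hr : r ≠ 0) {g h : C → C} (hg : Ap r g)
    (hh : Ap r h) : Ap r (fun z => g z * h z) := by
  obtain ⟨⟨B, hB0, hB⟩, -⟩ := hg.good hq hq2 hr
  obtain ⟨⟨B', hB0', hB'⟩, -⟩ := hh.good hq hq2 hr
  intro ε hε
  set δ : ℝ := min 1 (ε / (B + B' + 1)) with hδ
  have hδ0 : 0 < δ := by positivity
  have hδ1 : δ ≤ 1 := min_le_left _ _
  have hδ2 : δ * (B + B' + 1) ≤ ε := by
    calc δ * (B + B' + 1) ≤ ε / (B + B' + 1) * (B + B' + 1) :=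
          mul_le_mul_of_nonneg_right (min_le_right _ _) (by positivity)
      _ = ε := by field_simp
  obtain ⟨P, Q, h1, h2⟩ := hg δ hδ0
  obtain ⟨P', Q', h1', h2'⟩ := hh δ hδ0
  refine ⟨P * P', Q * Q', fun z hz => ?_, fun z hz => ?_⟩
  · rw [eval_mul]
    exact mul_ne_zero (h1 z hz) (h1' z hz)
  · have e : g z * h z - (P * P').eval z / (Q * Q').eval z =
        (g z - P.eval z / Q.eval z) * h z + (P.eval z / Q.eval z) * (h z - P'.eval z / Q'.eval z) := by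
      rw [eval_mul, eval_mul, ← div_mul_div_comm]
      ring
    rw [e]
    have hR : ‖P.eval z / Q.eval z‖ ≤ B + 1 := by
      have e2 : P.eval z / Q.eval z = g z - (g z - P.eval z / Q.eval z) := by ring
      rw [e2]
      exact (norm_sub_le_of ((hB z hz).trans (le_add_of_nonneg_right zero_le_one))
        ((h2 z hz).trans (by linarith)))
    apply norm_add_le_of
    · rw [norm_mul]
      calc _ ≤ δ * B' := mul_le_mul (h2 z hz) (hB' z hz) (norm_nonneg _) hδ0.le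
        _ ≤ δ * (B + B' + 1) := mul_le_mul_of_nonneg_left (by linarith) hδ0.le
        _ ≤ ε := hδ2
    · rw [norm_mul]
      calc _ ≤ (B + 1) * δ := mul_le_mul hR (h2' z hz) (norm_nonneg _) (by positivity)
        _ ≤ δ * (B + B' + 1) := by nlinarith
        _ ≤ ε := hδ2

lemma Ap.pow (hq : (q : C) = 0) (hq2 : 2 ≤ q) {r : C} (hr : r ≠ 0) {g : C → C} (hg : Ap r g) (n : ℕ) :
    Ap r (fun z => g z ^ n) := by
  induction n with
  | zero => exact (ap_poly (r := r) 1).congr (by simp)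
  | succ n ih => exact (ih.mul hq hq2 hr hg).congr fun z _ => (pow_succ _ _).symm

lemma ap_pole {r c : C} (hc : ‖c‖ ≠ ‖r‖) : Ap r (fun z => (z - c)⁻¹) := by
  refine (ap_rat (r := r) 1 (X - Polynomial.C c) fun z hz => ?_).congr (by simp)
  rw [eval_sub, eval_X, eval_C, Ne, sub_eq_zero]
  rintro rfl
  exact hc hz

lemma ap_sum {ι : Type*} {r : C} (T : Finset ι) {g : ι → C → C} (hg : ∀ i ∈ T, Ap r (g i)) :
    Ap r (fun z => ∑ i ∈ T, g i z) := by
  classical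
  induction T using Finset.induction_on with
  | empty => exact (ap_poly (r := r) 0).congr (by simp)
  | insert x T hx ih =>
    refine ((hg x (by simp)).add (ih fun i hi => hg i (by simp [hi]))).congr fun z _ => ?_
    rw [Finset.sum_insert hx]

section
variable {Fq : Type} [Field Fq] [Fintype Fq] [Algebra Fq C] {t s : C}

/-- the outer circles are in `Ω` -/
lemma outer_om (hs : s ^ 2 = t) (ht : 1 < ‖t‖) (n : ℕ) {z : C} (hz : ‖z‖ = ‖s ^ (2 * n + 1)‖) :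
    z ∈ OmegaN Fq t (n + 1) :=
  reg0_sub hs ht n ((regOK0 (F := Fq) hs ht n).outer (by rwa [sub_zero]))

lemma inner_om (hs : s ^ 2 = t) (ht : 1 < ‖t‖) {z : C} (hz : ‖z‖ = ‖s⁻¹‖) :
    z ∈ OmegaN Fq t (0 + 1) := by
  apply reg0_sub hs ht 0
  refine (regOK0 (F := Fq) hs ht 0).inner (i := 0) ?_
  rw [pt_zero, sub_zero]
  exact hz

lemma ap_rigid {f : C → C} (hf : IsRigidAnalytic Fq t f) {r : C} {N : ℕ}
    (hr : ∀ z : C, ‖z‖ = ‖r‖ → z ∈ OmegaN Fq t N) : Ap r f := by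
  intro ε hε
  obtain ⟨P, Q, h1, h2⟩ := hf N ε hε
  exact ⟨P, Q, fun z hz => h1 z (hr z hz), fun z hz => h2 z (hr z hz)⟩

lemma ap_outer (hs : s ^ 2 = t) (ht : 1 < ‖t‖) {f : C → C} (hf : IsRigidAnalytic Fq t f) (n : ℕ) :
    Ap (s ^ (2 * n + 1)) f := ap_rigid hf (N := n + 1) fun _ hz => outer_om hs ht n hz

lemma ap_inner (hs : s ^ 2 = t) (ht : 1 < ‖t‖) {f : C → C} (hf : IsRigidAnalytic Fq t f) :
    Ap s⁻¹ f := ap_rigid hf (N := 0 + 1) fun _ hz => inner_om hs ht hz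

/-- `|x| < |s^(2n+1)|` or `|x| > |s^(2n+1)|` for `x ∈ K_∞` -/
lemma far_outer (hs : s ^ 2 = t) (ht : 1 < ‖t‖) (n : ℕ) {z : C} (hz : ‖z‖ = ‖s ^ (2 * n + 1)‖) :
    Far Fq t ‖s ^ (2 * n + 1)‖ z := by
  intro x hx
  have hs1 := norm_s hs ht
  obtain ⟨a, ha⟩ := exists_poly_near ht hx
  have h1 : ‖t‖⁻¹ < 1 := inv_lt_one_of_one_lt₀ ht
  have hbig : 1 < ‖s ^ (2 * n + 1)‖ := by
    rw [norm_pow]
    exact one_lt_pow₀ hs1 (by omega)
  have key : ‖s ^ (2 * n + 1)‖ ≤ ‖z - aeval t a‖ := by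
    by_cases ha0 : a = 0
    · rw [ha0, map_zero, sub_zero, hz]
    · have h2 := norm_aeval ht ha0
      rw [norm_t_pow hs] at h2
      rcases lt_or_ge (2 * n + 1) (2 * a.natDegree) with h | h
      · have h3 : ‖z‖ < ‖aeval t a‖ := by
          rw [hz, h2, norm_pow]
          exact pow_lt_pow_right₀ hs1 h
        rw [norm_sub_of_lt h3, ← hz]
        exact h3.le
      · have h3 : ‖aeval t a‖ < ‖z‖ := by
          rw [hz, h2, norm_pow]
          exact pow_lt_pow_right₀ hs1 (by omega)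
        rw [norm_sub_of_gt h3, hz]
  have e : z - x = (z - aeval t a) - (x - aeval t a) := by ring
  rw [e, norm_sub_of_gt (ha.trans_lt (h1.trans (hbig.trans_le key)))]
  exact key

end

end Pool.Agent.J4H4.HP
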