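import Pool.Agent.J4H4.HP.Van
import Pool.Agent.J4H97.HP.Mmh

/-!
# Project HP, stage 2, K6: the growth bound
-/

set_option linter.unusedSectionVars false

open Polynomial Matrix Filter Topology

namespace Pool.Agent.J4H4.HP

open Pool.Agent.TH828.DM
open Pool.Agent.N814.DR (slash SmallAtInfinity jf mob slash_mul slash_of_mem rigid_slash aeval_ne_zero jf_ne_zero
  mob_mem)
open Pool.Agent.J4H98.HP (Sta Far Per GB S_EXPA S_UE S_GB)
open Pool.Agent.J4H97.HP (per_of_inv slash_scalar det_W)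

variable {Fq C : Type} [Field Fq] [Fintype Fq] [NontriviallyNormedField C] [IsUltrametricDist C]
  [Algebra Fq C] {t s : C}

/-! ### rational functions are bounded on `Ω_N` -/

lemma norm_sub_root (ht : 1 < ‖t‖) {N : ℕ} {z c : C} (hz : z ∈ OmegaN Fq t N) (hc : c ∉ OmegaN Fq t N) :
    (‖t‖ ^ N)⁻¹ ≤ ‖z - c‖ := by
  have h1 : 1 ≤ ‖t‖ ^ N := one_le_pow₀ ht.le
  by_cases hn : ‖c‖ ≤ ‖t‖ ^ N
  · have : ∃ x ∈ Kinf Fq t, ‖c - x‖ < (‖t‖ ^ N)⁻¹ := by
      by_contra h
      push Not at h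
      exact hc ⟨hn, h⟩
    obtain ⟨x, hx, hcx⟩ := this
    have h2 := hz.2 x hx
    have e : z - c = (z - x) - (c - x) := by ring
    rw [e, norm_sub_of_gt (hcx.trans_le h2)]
    exact h2
  · rw [not_le] at hn
    rw [norm_sub_of_lt (hz.1.trans_lt hn)]
    exact (inv_le_one_of_one_le₀ h1).trans (h1.trans hn.le)

lemma norm_polL_ge (ht : 1 < ‖t‖) {N : ℕ} {z : C} (hz : z ∈ OmegaN Fq t N) (L : Multiset C)
    (hL : ∀ c ∈ L, c ∉ OmegaN Fq t N) : (‖t‖ ^ N)⁻¹ ^ Multiset.card L ≤ ‖polL L z‖ := by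
  induction L using Multiset.induction_on with
  | empty => simp [polL]
  | cons c L ih =>
    have e : polL (c ::ₘ L) z = (z - c) * polL L z := by simp [polL]
    rw [e, norm_mul, Multiset.card_cons, pow_succ']
    exact mul_le_mul (norm_sub_root ht hz (hL c (by simp))) (ih fun x hx => hL x (by simp [hx]))
      (by positivity) (norm_nonneg _)

lemma rigid_bdd [IsAlgClosed C] (ht : 1 < ‖t‖) {f : C → C} (hf : IsRigidAnalytic Fq t f) (N : ℕ) :
    ∃ M : ℝ, 0 ≤ M ∧ ∀ z ∈ OmegaN Fq t N, ‖f z‖ ≤ M := by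
  obtain ⟨P, Q, hQ, hPQ⟩ := hf N 1 one_pos
  by_cases hQ0 : Q = 0
  · refine ⟨0, le_rfl, fun z hz => ?_⟩
    exact absurd (by rw [hQ0, eval_zero]) (hQ z hz)
  have hroots : ∀ c ∈ Q.roots, c ∉ OmegaN Fq t N := fun c hc hcV => hQ c hcV (isRoot_of_mem_roots hc)
  have hlc : 0 < ‖Q.leadingCoeff‖ := norm_pos_iff.2 (leadingCoeff_ne_zero.2 hQ0)
  set S : ℝ := ∑ i ∈ Finset.range (P.natDegree + 1), ‖P.coeff i‖ * (‖t‖ ^ N) ^ i with hS
  set D : ℝ := ‖Q.leadingCoeff‖ * (‖t‖ ^ N)⁻¹ ^ Multiset.card Q.roots with hD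
  have hD0 : 0 < D := by positivity
  refine ⟨S / D + 1, by positivity, fun z hz => ?_⟩
  have e : Q.eval z = Q.leadingCoeff * polL Q.roots z := by
    conv_lhs => rw [(IsAlgClosed.splits Q).eq_prod_roots]
    rw [Polynomial.eval_mul, Polynomial.eval_C]
    congr 1
    rw [Polynomial.eval_multiset_prod, Multiset.map_map]
    unfold polL
    congr 1
    apply Multiset.map_congr rfl
    intro c _
    simp
  have h1 : D ≤ ‖Q.eval z‖ := by
    rw [e, norm_mul, hD]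
    exact mul_le_mul_of_nonneg_left (norm_polL_ge ht hz _ hroots) (norm_nonneg _)
  have h2 : ‖P.eval z‖ ≤ S := norm_eval_le P z hz.1
  have e2 : f z = P.eval z / Q.eval z + (f z - P.eval z / Q.eval z) := by ring
  rw [e2]
  refine (norm_add_le _ _).trans (add_le_add ?_ (hPQ z hz))
  rw [norm_div]
  exact div_le_div₀ (by positivity) h2 hD0 h1

/-! ### Far from `K_∞` -/

lemma Far.mono {ρ ρ' : ℝ} (h : ρ ≤ ρ') {z : C} (hz : Far Fq t ρ' z) : Far Fq t ρ z := fun x hx =>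
  h.trans (hz x hx)

lemma Far.sub {ρ : ℝ} {z a : C} (hz : Far Fq t ρ z) (ha : a ∈ Kinf Fq t) : Far Fq t ρ (z - a) := fun x hx => by
  have := hz (a + x) ((Kinf Fq t).add_mem ha hx)
  rwa [← sub_sub] at this

lemma Far.add {ρ : ℝ} {z a : C} (hz : Far Fq t ρ z) (ha : a ∈ Kinf Fq t) : Far Fq t ρ (z + a) := by
  have := Far.sub hz ((Kinf Fq t).neg_mem ha)
  rwa [sub_neg_eq_add] at this

lemma Far.div {ρ : ℝ} {z n : C} (hz : Far Fq t ρ z) (hn : n ∈ Kinf Fq t) (hn0 : n ≠ 0) :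
    Far Fq t (ρ / ‖n‖) (z / n) := fun x hx => by
  have h1 := hz (n * x) ((Kinf Fq t).mul_mem hn hx)
  have e : z / n - x = (z - n * x) / n := by field_simp
  rw [e, norm_div]
  exact div_le_div_of_nonneg_right h1 (norm_nonneg _)

/-- `|γ z|_i = |z|_i / |c z + d|²` -/
lemma Far.mob {ρ : ℝ} (hρ : 0 ≤ ρ) {z a b c d : C} (hz : Far Fq t ρ z) (ha : a ∈ Kinf Fq t) (hb : b ∈ Kinf Fq t)
    (hc : c ∈ Kinf Fq t) (hd : d ∈ Kinf Fq t) (hdet : a * d - b * c = 1) (h0 : c * z + d ≠ 0) :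
    Far Fq t (ρ / ‖c * z + d‖ ^ 2) ((a * z + b) / (c * z + d)) := by
  intro x hx
  have hcz : 0 < ‖c * z + d‖ := norm_pos_iff.2 h0
  set A := a - x * c with hA
  set B := b - x * d with hB
  have hAK : A ∈ Kinf Fq t := (Kinf Fq t).sub_mem ha ((Kinf Fq t).mul_mem hx hc)
  have hBK : B ∈ Kinf Fq t := (Kinf Fq t).sub_mem hb ((Kinf Fq t).mul_mem hx hd)
  have lin : ∀ α β : C, α ∈ Kinf Fq t → β ∈ Kinf Fq t → ‖α‖ * ρ ≤ ‖α * z + β‖ := by
    intro α β hα hβ
    by_cases hα0 : α = 0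
    · rw [hα0, norm_zero, zero_mul]
      exact norm_nonneg _
    · have h1 := hz (-β / α) ((Kinf Fq t).div_mem ((Kinf Fq t).neg_mem hβ) hα)
      have e : α * z + β = α * (z - -β / α) := by field_simp; ring
      rw [e, norm_mul]
      exact mul_le_mul_of_nonneg_left h1 (norm_nonneg _)
  have e : (a * z + b) / (c * z + d) - x = (A * z + B) / (c * z + d) := by
    rw [eq_div_iff h0, sub_mul, div_mul_cancel₀ _ h0, hA, hB]; ring
  have h1 : (1 : ℝ) ≤ max (‖A‖ * ‖c * z + d‖) (‖c‖ * ‖A * z + B‖) := by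
    have e2 : (1 : C) = A * (c * z + d) - c * (A * z + B) := by
      rw [hA, hB]
      linear_combination -hdet
    have h2 : ‖(1 : C)‖ ≤ max ‖A * (c * z + d)‖ ‖c * (A * z + B)‖ := by
      rw [e2]
      exact norm_sub_le_of (le_max_left _ _) (le_max_right _ _)
    rwa [norm_one, norm_mul, norm_mul] at h2
  rw [e, norm_div, div_le_div_iff₀ (by positivity) hcz]
  have h3 : ρ ≤ ‖A * z + B‖ * ‖c * z + d‖ := by
    rcases le_max_iff.1 h1 with h | h
    · calc ρ = 1 * ρ := (one_mul _).symm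
        _ ≤ (‖A‖ * ‖c * z + d‖) * ρ := mul_le_mul_of_nonneg_right h hρ
        _ = (‖A‖ * ρ) * ‖c * z + d‖ := by ring
        _ ≤ _ := mul_le_mul_of_nonneg_right (lin A B hAK hBK) (norm_nonneg _)
    · calc ρ = 1 * ρ := (one_mul _).symm
        _ ≤ (‖c‖ * ‖A * z + B‖) * ρ := mul_le_mul_of_nonneg_right h hρ
        _ = ‖A * z + B‖ * (‖c‖ * ρ) := by ring
        _ ≤ _ := mul_le_mul_of_nonneg_left (lin c d hc hd) (norm_nonneg _)
  calc ρ * ‖c * z + d‖ ≤ (‖A * z + B‖ * ‖c * z + d‖) * ‖c * z + d‖ :=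
        mul_le_mul_of_nonneg_right h3 (norm_nonneg _)
    _ = ‖A * z + B‖ * ‖c * z + d‖ ^ 2 := by ring

/-! ### reduction theory -/

lemma natDegree_le_of_norm (ht : 1 < ‖t‖) {a : Fq[X]} {n : ℕ} (h : ‖aeval t a‖ ≤ ‖t‖ ^ n) : a.natDegree < n + 1 := by
  by_cases ha : a = 0
  · rw [ha, natDegree_zero]
    omega
  · rw [norm_aeval ht ha] at h
    have := (pow_le_pow_iff_right₀ ht).1 h
    omega

variable [CompleteSpace C] [IsAlgClosed C]

lemma exists_min (ht : 1 < ‖t‖) {z : C} (hz : z ∈ Omega Fq t) : ∃ c d : Fq[X], IsCoprime c d ∧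
    ∀ c' d' : Fq[X], ¬ (c' = 0 ∧ d' = 0) → ‖aeval t c * z + aeval t d‖ ≤ ‖aeval t c' * z + aeval t d'‖ := by
  obtain ⟨ρ, hρ, hfar⟩ := exists_far hz
  set T : Set (Fq[X] × Fq[X]) := {x | ¬ (x.1 = 0 ∧ x.2 = 0) ∧ ‖aeval t x.1 * z + aeval t x.2‖ ≤ 1} with hT
  obtain ⟨n1, hn1⟩ := pow_unbounded_of_one_lt (1 / ρ) ht
  obtain ⟨n2, hn2⟩ := pow_unbounded_of_one_lt (‖t‖ ^ n1 * ‖z‖) ht
  have hfin : T.Finite := by
    refine Set.Finite.subset ((Pool.Agent.J4H69.HP.finite_natDegree_lt Fq (n1 + 1)).prod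
      (Pool.Agent.J4H69.HP.finite_natDegree_lt Fq (n2 + 1))) ?_
    rintro ⟨c, d⟩ ⟨-, h⟩
    have h1 : ‖aeval t c‖ ≤ ‖t‖ ^ n1 := by
      by_cases hc : c = 0
      · rw [hc, map_zero, norm_zero]
        positivity
      · have hc0 := aeval_ne_zero ht hc
        have h2 := hfar (-(aeval t d) / aeval t c)
          ((Kinf Fq t).div_mem ((Kinf Fq t).neg_mem (aeval_mem_Kinf t d)) (aeval_mem_Kinf t c))
        have e : aeval t c * z + aeval t d = aeval t c * (z - -(aeval t d) / aeval t c) := by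
          field_simp
          ring
        simp only at h
        rw [e, norm_mul] at h
        have h3 : ‖aeval t c‖ * ρ ≤ 1 := (mul_le_mul_of_nonneg_left h2 (norm_nonneg _)).trans h
        rw [← le_div_iff₀ hρ] at h3
        exact h3.trans hn1.le
    have h2 : ‖aeval t d‖ ≤ ‖t‖ ^ n2 := by
      have e : aeval t d = (aeval t c * z + aeval t d) - aeval t c * z := by ring
      rw [e]
      apply norm_sub_le_of
      · exact h.trans (one_le_pow₀ ht.le)
      · rw [norm_mul]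
        exact (mul_le_mul_of_nonneg_right h1 (norm_nonneg _)).trans hn2.le
    exact ⟨natDegree_le_of_norm ht h1, natDegree_le_of_norm ht h2⟩
  have hne : T.Nonempty := ⟨(0, 1), by simp, by simp⟩
  obtain ⟨⟨c, d⟩, ⟨hcd0, hcd1⟩, hmin⟩ := Set.exists_min_image T
    (fun x => ‖aeval t x.1 * z + aeval t x.2‖) hfin hne
  have hmin' : ∀ c' d' : Fq[X], ¬ (c' = 0 ∧ d' = 0) →
      ‖aeval t c * z + aeval t d‖ ≤ ‖aeval t c' * z + aeval t d'‖ := by
    intro c' d' h
    by_cases h1 : ‖aeval t c' * z + aeval t d'‖ ≤ 1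
    · exact hmin (c', d') ⟨h, h1⟩
    · exact hcd1.trans (not_le.1 h1).le
  refine ⟨c, d, ?_, hmin'⟩
  classical
  rw [← EuclideanDomain.gcd_isUnit_iff]
  set g := EuclideanDomain.gcd c d with hg
  obtain ⟨c', hc'⟩ := EuclideanDomain.gcd_dvd_left c d
  obtain ⟨d', hd'⟩ := EuclideanDomain.gcd_dvd_right c d
  rw [← hg] at hc' hd'
  have hg0 : g ≠ 0 := by
    intro h
    rw [h, zero_mul] at hc' hd'
    exact hcd0 ⟨hc', hd'⟩
  have hcd' : ¬ (c' = 0 ∧ d' = 0) := by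
    rintro ⟨h1, h2⟩
    rw [h1, mul_zero] at hc'
    rw [h2, mul_zero] at hd'
    exact hcd0 ⟨hc', hd'⟩
  have h1 := hmin' c' d' hcd'
  have e : aeval t c * z + aeval t d = aeval t g * (aeval t c' * z + aeval t d') := by
    conv_lhs => rw [hc', hd']
    rw [map_mul, map_mul]
    ring
  have hpos : 0 < ‖aeval t c' * z + aeval t d'‖ := by
    rw [norm_pos_iff]
    intro h0
    by_cases hc0 : c' = 0
    · rw [hc0, map_zero, zero_mul, zero_add] at h0
      by_cases hd0 : d' = 0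
      · exact hcd' ⟨hc0, hd0⟩
      · exact aeval_ne_zero ht hd0 h0
    · apply hz
      have hc0' := aeval_ne_zero ht hc0
      have e2 : z = -(aeval t d') / aeval t c' := by
        field_simp
        linear_combination h0
      rw [e2]
      exact (Kinf Fq t).div_mem ((Kinf Fq t).neg_mem (aeval_mem_Kinf t d')) (aeval_mem_Kinf t c')
  rw [e, norm_mul] at h1
  have h2 : ‖aeval t g‖ ≤ 1 := by
    by_contra hlt
    rw [not_le] at hlt
    nlinarith
  have h3 := natDegree_le_of_norm (n := 0) ht (by rwa [pow_zero])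
  have h4 : g.natDegree = 0 := by omega
  rw [natDegree_eq_zero] at h4
  obtain ⟨x, hx⟩ := h4
  rw [← hx]
  apply Polynomial.isUnit_C.2
  rw [isUnit_iff_ne_zero]
  rintro rfl
  apply hg0
  rw [← hx, map_zero]

/-! ### the bound near a cusp -/

lemma cusp_bd (hE : S_EXPA) (hU : S_UE) {ι : Pool.Agent.J4H98.HP.Kinf Fq →+* C} (hS : Sta t s ι) {h : C → C}
    (hr : IsRigidAnalytic Fq t h) (hper : Per Fq t h) (hsm : SmallAtInfinity Fq t h) {r : ℝ} (hr0 : 0 < r) :
    ∃ B : ℝ, 0 ≤ B ∧ ∀ y : C, ∀ ρ : ℝ, r ≤ ρ → Far Fq t ρ y → ‖h y‖ * ρ ≤ B := by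
  have ht := hS.ht
  obtain ⟨c, -, -, -, B, hB⟩ := hU Fq C t s ι hS h hr hper hsm
  obtain ⟨-, -, -, -, E5, -, -, -, -⟩ := hE Fq C t ht
  obtain ⟨N, hN⟩ := pow_unbounded_of_one_lt r⁻¹ ht
  obtain ⟨M, hM0, hM⟩ := rigid_bdd ht hr N
  refine ⟨max |B| M, le_max_of_le_left (abs_nonneg _), fun y ρ hρ hy => ?_⟩
  have hρ0 : 0 < ρ := hr0.trans_le hρ
  by_cases h1 : Far Fq t 1 y
  · have hyO : y ∈ Omega Fq t := Pool.Agent.J4H84.HP.omega_of_far one_pos h1
    have h2 : Far Fq t (max 1 ρ) y := fun x hx => max_le (h1 x hx) (hy x hx)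
    have h3 := E5 y _ (le_max_left _ _) h2
    calc ‖h y‖ * ρ ≤ ‖h y‖ * ‖expA Fq t y‖ :=
          mul_le_mul_of_nonneg_left ((le_max_right _ _).trans h3) (norm_nonneg _)
      _ ≤ B := hB y hyO h1
      _ ≤ _ := (le_abs_self B).trans (le_max_left _ _)
  · unfold Far at h1
    push Not at h1
    obtain ⟨x, hx, hyx⟩ := h1
    obtain ⟨a, ha⟩ := exists_poly_near ht hx
    have hρ1 : ρ < 1 := (hy x hx).trans_lt hyx
    have h2 : ‖y - aeval t a‖ < 1 := by
      have e : y - aeval t a = (y - x) + (x - aeval t a) := by ring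
      rw [e]
      exact norm_add_lt_of hyx (ha.trans_lt (inv_lt_one_of_one_lt₀ ht))
    have h3 : y - aeval t a ∈ OmegaN Fq t N := by
      refine ⟨h2.le.trans (one_le_pow₀ ht.le), fun x' hx' => ?_⟩
      have h4 := Far.sub hy (aeval_mem_Kinf t a) x' hx'
      refine le_trans ?_ (hρ.trans h4)
      rw [inv_le_comm₀ (by positivity) hr0]
      exact hN.le
    have h4 : h y = h (y - aeval t a) := by
      have := hper a _ (omegaN_sub ht h3)
      rw [sub_add_cancel] at this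
      exact this
    rw [h4]
    calc ‖h (y - aeval t a)‖ * ρ ≤ M * 1 := mul_le_mul (hM _ h3) hρ1.le hρ0.le hM0
      _ ≤ _ := by rw [mul_one]; exact le_max_right _ _

/-- the transformation of `f` by an element of `GL₂(A)` -/
lemma slash_cases (ht : 1 < ‖t‖) {n : Fq[X]} (hn : n.Monic) (hirr : Irreducible n) {f : C → C}
    (hf : ∀ γ : Matrix (Fin 2) (Fin 2) Fq[X], IsUnit γ.det → n ∣ γ 1 0 → slash Fq t 2 1 γ f = f)
    {γ : Matrix (Fin 2) (Fin 2) Fq[X]} (hγ : IsUnit γ.det) : slash Fq t 2 1 γ f = f ∨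
    ∃ x : Fq[X], slash Fq t 2 1 γ f =
      slash Fq t 2 1 !![1, x; 0, n] (slash Fq t 2 1 !![0, 1; n, 0] f) := by
  by_cases hd : n ∣ γ 1 0
  · exact Or.inl (hf γ hγ hd)
  · right
    have hcop : IsCoprime n (γ 1 0) := (hirr.coprime_iff_not_dvd).2 hd
    obtain ⟨u, v, huv⟩ := hcop
    set x := v * γ 1 1 with hx
    have hdvd : n ∣ γ 1 1 - γ 1 0 * x := by
      refine ⟨u * γ 1 1, ?_⟩
      rw [hx]
      linear_combination (-γ 1 1) * huv
    set γ0 : Matrix (Fin 2) (Fin 2) Fq[X] := !![γ 0 1 - γ 0 0 * x, γ 0 0; γ 1 1 - γ 1 0 * x, γ 1 0] with hγ0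
    have hdet0 : γ0.det = -γ.det := by
      rw [hγ0, Matrix.det_fin_two_of, Matrix.det_fin_two]; ring
    have hγe : γ = γ0 * !![0, 1; 1, x] := by
      conv_lhs => rw [Matrix.eta_fin_two γ]
      rw [hγ0, Matrix.mul_fin_two]
      congr 1
      ring_nf
    have hdw : (!![0, 1; 1, x] : Matrix (Fin 2) (Fin 2) Fq[X]).det ≠ 0 := by
      rw [Matrix.det_fin_two_of]; simp
    have e1 : slash Fq t 2 1 γ f = slash Fq t 2 1 !![0, 1; 1, x] f := by
      rw [hγe, ← slash_mul ht γ0 hdw, hf γ0 (by rw [hdet0]; exact hγ.neg) hdvd]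
    have hdU : (!![1, x; 0, n] : Matrix (Fin 2) (Fin 2) Fq[X]).det ≠ 0 := by
      rw [Matrix.det_fin_two_of]; simpa using hn.ne_zero
    have e2 : (n • !![0, 1; 1, x] : Matrix (Fin 2) (Fin 2) Fq[X]) = !![0, 1; n, 0] * !![1, x; 0, n] := by
      rw [Matrix.mul_fin_two]
      refine Matrix.ext fun i j => ?_
      fin_cases i <;> fin_cases j <;> simp
    refine ⟨x, ?_⟩
    rw [e1, ← slash_scalar ht hn.ne_zero, e2, ← slash_mul ht _ hdU]

theorem t_GB (hE : S_EXPA) (hU : S_UE) : S_GB := by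
  intro Fq C _ _ _ _ _ _ _ t s ι hS n hn hirr f hsupp hf hinv hsm hsmW
  have ht := hS.ht
  set h : C → C := slash Fq t 2 1 !![0, 1; n, 0] f with hh
  have hdetW : (!![0, 1; n, 0] : Matrix (Fin 2) (Fin 2) Fq[X]).det ≠ 0 := by
    rw [det_W]
    exact neg_ne_zero.2 hn.ne_zero
  have hhr : IsRigidAnalytic Fq t h := rigid_slash ht hdetW hf
  have hhper : Per Fq t h := by
    intro a z hz
    have hdt : (!![1, a; 0, 1] : Matrix (Fin 2) (Fin 2) Fq[X]).det = 1 := by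
      rw [Matrix.det_fin_two_of]; ring
    have e1 : slash Fq t 2 1 !![1, a; 0, 1] h = h := by
      rw [hh, slash_mul ht _ (by rw [hdt]; exact one_ne_zero)]
      have e2 : (!![0, 1; n, 0] * !![1, a; 0, 1] : Matrix (Fin 2) (Fin 2) Fq[X]) =
          !![1, 0; n * a, 1] * !![0, 1; n, 0] := by
        rw [Matrix.mul_fin_two, Matrix.mul_fin_two]
        refine Matrix.ext fun i j => ?_
        fin_cases i <;> fin_cases j <;> simp
      rw [e2, ← slash_mul ht _ hdetW, hinv !![1, 0; n * a, 1] (by rw [Matrix.det_fin_two_of]; simp)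
        (by simp)]
    have e3 := congrFun e1 z
    rw [slash_of_mem _ _ hz, hdt] at e3
    simpa [jf, mob] using e3
  have hn0 := aeval_ne_zero ht hn.ne_zero
  have hnn : 0 < ‖aeval t n‖ := norm_pos_iff.2 hn0
  obtain ⟨B1, hB10, hB1⟩ := cusp_bd hE hU hS hf (per_of_inv hinv) hsm one_pos
  obtain ⟨B2, hB20, hB2⟩ := cusp_bd hE hU hS hhr hhper hsmW (r := ‖aeval t n‖⁻¹) (by positivity)
  -- all conjugates
  have key : ∀ δ : Matrix (Fin 2) (Fin 2) Fq[X], IsUnit δ.det → ∀ y : C, ∀ ρ : ℝ, 1 ≤ ρ → Far Fq t ρ y →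
      ‖slash Fq t 2 1 δ f y‖ * ρ ≤ max B1 B2 := by
    intro δ hδ y ρ hρ hy
    have hyO : y ∈ Omega Fq t := Pool.Agent.J4H84.HP.omega_of_far (by linarith) hy
    rcases slash_cases ht hn hirr hinv hδ with h1 | ⟨x, h1⟩
    · rw [h1]
      exact (hB1 y ρ hρ hy).trans (le_max_left _ _)
    · have h2 : slash Fq t 2 1 δ f y = (aeval t n)⁻¹ * h ((y + aeval t x) / aeval t n) := by
        rw [h1, slash_of_mem _ _ hyO]
        have hdt : (!![1, x; 0, n] : Matrix (Fin 2) (Fin 2) Fq[X]).det = n := by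
          rw [Matrix.det_fin_two_of]; ring
        rw [hdt]
        simp only [jf, mob, Matrix.of_apply, Matrix.cons_val', Matrix.cons_val_zero, Matrix.cons_val_one,
          Matrix.cons_val_fin_one, map_zero, map_one, zero_mul, zero_add, one_mul, _root_.zpow_one]
        rw [← hh]
        congr 1
        field_simp
      have h3 : Far Fq t (ρ / ‖aeval t n‖) ((y + aeval t x) / aeval t n) :=
        Far.div (Far.add hy (aeval_mem_Kinf t x)) (aeval_mem_Kinf t n) hn0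
      have h4 := hB2 _ (ρ / ‖aeval t n‖) (by
        rw [inv_eq_one_div]
        exact div_le_div_of_nonneg_right hρ (norm_nonneg _)) h3
      rw [h2, norm_mul, norm_inv]
      calc ‖aeval t n‖⁻¹ * ‖h ((y + aeval t x) / aeval t n)‖ * ρ =
            ‖h ((y + aeval t x) / aeval t n)‖ * (ρ / ‖aeval t n‖) := by
              rw [div_eq_mul_inv]; ring
        _ ≤ B2 := h4
        _ ≤ _ := le_max_right _ _
  refine ⟨max B1 B2, fun z hz ρ hρ hfar => ?_⟩
  obtain ⟨c, d, ⟨u, v, huv⟩, hmin⟩ := exists_min ht hz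
  set γ : Matrix (Fin 2) (Fin 2) Fq[X] := !![v, -u; c, d] with hγ
  set δ : Matrix (Fin 2) (Fin 2) Fq[X] := !![d, u; -c, v] with hδ
  have hdγ : γ.det = 1 := by
    rw [hγ, Matrix.det_fin_two_of]
    linear_combination huv
  have hdδ : δ.det = 1 := by
    rw [hδ, Matrix.det_fin_two_of]
    linear_combination huv
  have hmul : δ * γ = 1 := by
    rw [hγ, hδ, Matrix.mul_fin_two, Matrix.one_fin_two]
    have e1 : d * v + u * c = 1 := by linear_combination huv
    have e2 : d * -u + u * d = 0 := by ring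
    have e3 : -c * v + v * c = 0 := by ring
    have e4 : -c * -u + v * d = 1 := by linear_combination huv
    rw [e1, e2, e3, e4]
  have hcz : aeval t c * z + aeval t d ≠ 0 := jf_ne_zero (γ := γ) ht (by rw [hdγ]; exact one_ne_zero) hz
  set j : C := aeval t c * z + aeval t d with hj
  set y : C := (aeval t v * z + aeval t (-u)) / j with hy
  have hjp : 0 < ‖j‖ := norm_pos_iff.2 hcz
  have hfz : f z = (j ^ 2)⁻¹ * slash Fq t 2 1 δ f y := by
    have e1 : slash Fq t 2 1 γ (slash Fq t 2 1 δ f) z = f z := by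
      rw [slash_mul ht _ (by rw [hdγ]; exact one_ne_zero), hmul, Pool.Agent.N814.DR.slash_one hsupp]
    rw [← e1, slash_of_mem _ _ hz, hdγ, map_one, _root_.one_zpow, one_mul]
    rfl
  have hyfar : Far Fq t 1 y := by
    intro x hx
    obtain ⟨a, ha⟩ := exists_poly_near ht hx
    have h1 : 1 ≤ ‖y - aeval t a‖ := by
      have e : y - aeval t a = (aeval t (v - a * c) * z + aeval t (-u - a * d)) / j := by
        rw [eq_div_iff hcz, sub_mul, hy, div_mul_cancel₀ _ hcz, hj]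
        simp only [map_sub, map_mul]
        ring
      rw [e, norm_div, one_le_div hjp]
      apply hmin
      rintro ⟨h1, h2⟩
      have h3 : u * c + v * d = 0 := by linear_combination d * h1 - c * h2
      rw [h3] at huv
      exact zero_ne_one huv
    have e : y - x = (y - aeval t a) - (x - aeval t a) := by ring
    rw [e, norm_sub_of_gt ((ha.trans_lt (inv_lt_one_of_one_lt₀ ht)).trans_le h1)]
    exact h1
  have hyfar2 : Far Fq t (ρ / ‖j‖ ^ 2) y := Far.mob hρ hfar (aeval_mem_Kinf t v) (aeval_mem_Kinf t (-u))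
    (aeval_mem_Kinf t c) (aeval_mem_Kinf t d) (by
      rw [← map_mul, ← map_mul, ← map_sub]
      have e : v * d - -u * c = 1 := by linear_combination huv
      rw [e, map_one]) hcz
  have h1 := key δ (by rw [hdδ]; exact isUnit_one) y (max 1 (ρ / ‖j‖ ^ 2)) (le_max_left _ _)
    (fun x hx => max_le (hyfar x hx) (hyfar2 x hx))
  rw [hfz, norm_mul, norm_inv, norm_pow]
  calc (‖j‖ ^ 2)⁻¹ * ‖slash Fq t 2 1 δ f y‖ * ρ = ‖slash Fq t 2 1 δ f y‖ * (ρ / ‖j‖ ^ 2) := by
        rw [div_eq_mul_inv]; ring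
    _ ≤ ‖slash Fq t 2 1 δ f y‖ * max 1 (ρ / ‖j‖ ^ 2) :=
        mul_le_mul_of_nonneg_left (le_max_right _ _) (norm_nonneg _)
    _ ≤ _ := h1

end Pool.Agent.J4H4.HP
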