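import Pool.Agent.J4H4.HP.Circ

/-!
# Project HP, stage 2, K4: expansions at infinity, coefficients as residues
-/

set_option linter.unusedSectionVars false

open Polynomial Matrix Filter Topology

namespace Pool.Agent.J4H4.HP

open Pool.Agent.TH828.DM
open Pool.Agent.N814.DR (slash SmallAtInfinity)
open Pool.Agent.J4H98.HP (Sta Far Per GB S_EXPA S_UE)

variable {Fq C : Type} [Field Fq] [Fintype Fq] [NontriviallyNormedField C] [IsUltrametricDist C]
  [CompleteSpace C] [IsAlgClosed C] [Algebra Fq C] {t s : C}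

/-- the partial sums of `1 / e_A` -/
noncomputable def SN (Fq : Type) [Field Fq] [Fintype Fq] [Algebra Fq C] (t : C) (N : ℕ) (y : C) : C :=
  ∑ b : Fin N → Fq, (y - pt t b)⁻¹

lemma norm_pt_lt (ht : 1 < ‖t‖) {N : ℕ} (b : Fin N → Fq) : ‖pt t b‖ < ‖t‖ ^ N := by
  cases N with
  | zero =>
    have : pt t b = 0 := by unfold pt; simp
    rw [this, norm_zero]
    positivity
  | succ n => exact (norm_pt_le ht b).trans_lt (pow_lt_pow_right₀ ht (by omega))

lemma pt_snoc (t : C) {N : ℕ} (b : Fin N → Fq) (c : Fq) :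
    pt t (Fin.snoc b c : Fin (N + 1) → Fq) = pt t b + algebraMap Fq C c * t ^ N := by
  unfold pt
  rw [Fin.sum_univ_castSucc]
  simp

lemma SN_succ (t : C) (N : ℕ) (y : C) :
    SN Fq t (N + 1) y = ∑ c : Fq, ∑ b : Fin N → Fq, (y - (pt t b + algebraMap Fq C c * t ^ N))⁻¹ := by
  unfold SN
  rw [← Fintype.sum_prod_type']
  symm
  refine Fintype.sum_equiv (Fin.snocEquiv fun _ => Fq) _ _ ?_
  rintro ⟨c, b⟩
  rw [← pt_snoc]
  rfl

lemma norm_SN_succ_sub (ht : 1 < ‖t‖) {N : ℕ} {y : C} (hy : ‖y‖ < ‖t‖ ^ N) :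
    ‖SN Fq t (N + 1) y - SN Fq t N y‖ ≤ (‖t‖ ^ N)⁻¹ := by
  classical
  rw [SN_succ, ← Finset.add_sum_erase _ _ (Finset.mem_univ (0 : Fq))]
  have e : ∑ b : Fin N → Fq, (y - (pt t b + algebraMap Fq C 0 * t ^ N))⁻¹ = SN Fq t N y := by
    unfold SN
    simp
  rw [e, add_sub_cancel_left]
  apply IsUltrametricDist.norm_sum_le_of_forall_le_of_nonneg (by positivity)
  intro c hc
  apply IsUltrametricDist.norm_sum_le_of_forall_le_of_nonneg (by positivity)
  intro b _
  have h1 : ‖algebraMap Fq C c * t ^ N‖ = ‖t‖ ^ N := by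
    rw [norm_mul, norm_algebraMap (Finset.ne_of_mem_erase hc), one_mul, norm_pow]
  have h2 : ‖y - pt t b‖ < ‖t‖ ^ N := norm_sub_lt_of hy (norm_pt_lt ht b)
  rw [← sub_sub, norm_inv, norm_sub_of_lt (by rwa [h1]), h1]

lemma norm_SN_sub (ht : 1 < ‖t‖) {N : ℕ} {y : C} (hy : ‖y‖ < ‖t‖ ^ N) (k : ℕ) :
    ‖SN Fq t (N + k) y - SN Fq t N y‖ ≤ (‖t‖ ^ N)⁻¹ := by
  induction k with
  | zero => simp
  | succ k ih =>
    have e : SN Fq t (N + (k + 1)) y - SN Fq t N y =
        (SN Fq t (N + k + 1) y - SN Fq t (N + k) y) + (SN Fq t (N + k) y - SN Fq t N y) := by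
      rw [← add_assoc]
      ring
    rw [e]
    apply norm_add_le_of _ ih
    refine (norm_SN_succ_sub ht (hy.trans_le (pow_le_pow_right₀ ht.le (by omega)))).trans ?_
    exact inv_anti₀ (by positivity) (pow_le_pow_right₀ ht.le (by omega))

/-- the convergence `∑ 1 / (y - a) → 1 / e_A(y)` is uniform on bounded sets -/
lemma norm_inv_expA_sub (ht : 1 < ‖t‖) {N : ℕ} {y : C} (hy : ‖y‖ < ‖t‖ ^ N)
    (hlim : Tendsto (fun N : ℕ => SN Fq t N y) atTop (𝓝 (expA Fq t y)⁻¹)) :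
    ‖(expA Fq t y)⁻¹ - SN Fq t N y‖ ≤ (‖t‖ ^ N)⁻¹ := by
  have h1 : Tendsto (fun k : ℕ => ‖SN Fq t (N + k) y - SN Fq t N y‖) atTop
      (𝓝 ‖(expA Fq t y)⁻¹ - SN Fq t N y‖) := by
    refine ((hlim.comp (tendsto_add_atTop_nat N)).sub_const (SN Fq t N y)).norm.congr fun k => ?_
    simp only [Function.comp_apply]
    rw [add_comm k N]
  exact le_of_tendsto h1 (Eventually.of_forall fun k => norm_SN_sub ht hy k)

section cauchy

variable {f : C → C} {w : C}

lemma norm_sub_ge (hs : s ^ 2 = t) (ht : 1 < ‖t‖) (hw : Far Fq t 1 w) {z : C} (hz : ‖z‖ = ‖s⁻¹‖)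
    {x : C} (hx : x ∈ Kinf Fq t) : ‖w - z - x‖ = ‖w - x‖ := by
  have h1 : ‖z‖ < 1 := by
    rw [hz, norm_inv]
    exact inv_lt_one_of_one_lt₀ (norm_s hs ht)
  have e : w - z - x = (w - x) - z := by ring
  rw [e, norm_sub_of_gt (h1.trans_le (hw x hx))]

lemma sub_mem_omega (hs : s ^ 2 = t) (ht : 1 < ‖t‖) (hw : Far Fq t 1 w) {z : C} (hz : ‖z‖ = ‖s⁻¹‖) :
    w - z ∈ Omega Fq t := by
  intro h
  have h1 := norm_sub_ge hs ht hw hz h
  rw [sub_self, norm_zero] at h1
  have h2 := hw _ h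
  rw [← h1] at h2
  linarith

lemma pt_mem (t : C) {n : ℕ} (b : Fin n → Fq) : pt t b ∈ Kinf Fq t := by
  rw [pt_eq_aeval]
  exact aeval_mem_Kinf t _

/-- Cauchy's formula and periodicity -/
lemma cauchy_per (hs : s ^ 2 = t) (ht : 1 < ‖t‖) (hf : IsRigidAnalytic Fq t f) (hper : Per Fq t f)
    (hw : Far Fq t 1 w) {n : ℕ} (hn : ‖w‖ < ‖s ^ (2 * n + 1)‖) :
    ∃ v0 V : C, HasRes (Fintype.card Fq) (fun z => f z * (z - w)⁻¹) 0 (s ^ (2 * n + 1)) v0 ∧
      HasRes (Fintype.card Fq) (fun z => f z * SN Fq t (n + 1) (w - z)) 0 s⁻¹ V ∧ f w = v0 + V := by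
  have hq := card_cast Fq C
  have hq2 := two_le_card (F := Fq)
  have hs1 := norm_s hs ht
  have hs0 : s ≠ 0 := norm_pos_iff.1 (by linarith)
  have hsi : ‖s⁻¹‖ < 1 := by
    rw [norm_inv]
    exact inv_lt_one_of_one_lt₀ hs1
  have H := regOK0 (F := Fq) hs ht n
  obtain ⟨-, v0, hv0⟩ := ((ap_outer hs ht hf n).mul hq hq2 (pow_ne_zero _ hs0) (ap_pole hn.ne)).good hq hq2
    (pow_ne_zero _ hs0)
  have hb : ∀ b : Fin (n + 1) → Fq, ∃ v, HasRes (Fintype.card Fq) (fun z => f z * (w - z - pt t b)⁻¹) 0 s⁻¹ v := by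
    intro b
    have h1 : ‖w - pt t b‖ ≠ ‖s⁻¹‖ := (hsi.trans_le (hw _ (pt_mem t b))).ne'
    obtain ⟨-, v, hv⟩ := ((ap_inner hs ht hf).mul hq hq2 (inv_ne_zero hs0) (ap_pole h1)).good hq hq2
      (inv_ne_zero hs0)
    refine ⟨-v, ?_⟩
    have h2 := hv.const_mul (-1)
    rw [neg_one_mul] at h2
    refine h2.congr hq2 fun z _ => ?_
    have e : (w - z - pt t b)⁻¹ = -(z - (w - pt t b))⁻¹ := by
      rw [← inv_neg]
      congr 1
      ring
    rw [e]
    ring
  choose v hv using hb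
  refine ⟨v0, ∑ b, v b, hv0, ?_, ?_⟩
  · refine (HasRes.sum (T := Finset.univ) fun b _ => hv b).congr hq2 fun z _ => ?_
    unfold SN
    rw [Finset.mul_sum]
  · have h3 := cauchy_formula hq hq2 H (g := f) (w := w) (v0 := v0) (v := fun b => -v b) (fun ε hε => by
      obtain ⟨P, Q, h1, h2⟩ := hf (n + 1) ε hε
      exact ⟨P, Q, fun z hz => h1 z (reg0_sub hs ht n hz), fun z hz => h2 z (reg0_sub hs ht n hz)⟩) hn
      (fun b => hsi.trans_le (hw _ (pt_mem t b))) hv0 (fun b => ?_)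
    · rw [h3, Finset.sum_neg_distrib]
      ring
    · unfold HasRes
      simp only [avg_shift _ _ (pt t b)]
      have h4 := (hv b).const_mul (-1)
      rw [neg_one_mul] at h4
      refine h4.congr hq2 fun z hz => ?_
      rw [sub_zero] at hz
      have e1 : f (z + pt t b) = f z := by
        rw [pt_eq_aeval]
        exact hper _ z (inner_mem_omega hs ht hz)
      have e : (z + pt t b - w)⁻¹ = -(w - z - pt t b)⁻¹ := by
        rw [← inv_neg]
        congr 1
        ring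
      rw [e1, e]
      ring

end cauchy

lemma geo (a E e : C) (hE : E ≠ 0) (hne : E - e ≠ 0) (J : ℕ) :
    a * (E - e)⁻¹ - ∑ i ∈ Finset.range J, E⁻¹ ^ (i + 1) * (a * e ^ i) =
      a * (e ^ J * E⁻¹ ^ J * (E - e)⁻¹) := by
  induction J with
  | zero => simp
  | succ J ih =>
    rw [Finset.sum_range_succ, ← sub_sub, ih]
    have h : (E - e)⁻¹ = E⁻¹ + e * E⁻¹ * (E - e)⁻¹ := by
      field_simp
      ring
    linear_combination (a * e ^ J * E⁻¹ ^ J) * h

theorem t_UE (hE : S_EXPA) : S_UE := by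
  intro Fq C _ _ _ _ _ _ _ t s ι hS f hf hper hsmall
  have ht := hS.ht
  have hs := hS.hs
  have hq := card_cast Fq C
  have hq2 := two_le_card (F := Fq)
  have hs1 := norm_s hs ht
  have hs0 : s ≠ 0 := norm_pos_iff.1 (by linarith)
  have hi0 : s⁻¹ ≠ 0 := inv_ne_zero hs0
  have hsi : ‖s⁻¹‖ < 1 := by
    rw [norm_inv]
    exact inv_lt_one_of_one_lt₀ hs1
  have hsp : 0 < ‖s⁻¹‖ := norm_pos_iff.2 hi0
  obtain ⟨E1, E2, E3, E4, E5, E6, E7, -, E9⟩ := hE Fq C t ht
  have hsub : ∀ z z' : C, expA Fq t (z - z') = expA Fq t z - expA Fq t z' := by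
    intro z z'
    rw [eq_sub_iff_add_eq, ← E1, sub_add_cancel]
  -- residues of `f e_A^i`
  have hapE : Ap s⁻¹ (fun z => expA Fq t z) := ap_of_poly fun ε hε => by
    obtain ⟨P, hP⟩ := E7 ‖s⁻¹‖ ε hε
    exact ⟨P, fun z hz => hP z hz.le⟩
  have hapf := ap_inner hs ht hf
  obtain ⟨⟨B, hB0, hB⟩, -⟩ := hapf.good hq hq2 hi0
  have hres : ∀ i : ℕ, ∃ v, HasRes (Fintype.card Fq) (fun z => f z * expA Fq t z ^ i) 0 s⁻¹ v := fun i =>
    ((hapf.mul hq hq2 hi0 (hapE.pow hq hq2 hi0 i)).good hq hq2 hi0).2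
  choose c' hc' using hres
  have hnE : ∀ z : C, ‖z‖ = ‖s⁻¹‖ → ‖expA Fq t z‖ = ‖s⁻¹‖ := fun z hz => by
    rw [E4 z (by rw [hz]; exact hsi), hz]
  have hc'n : ∀ i, ‖c' i‖ ≤ ‖s⁻¹‖ * (B * ‖s⁻¹‖ ^ i) := fun i => by
    refine (hc' i).norm_le hq hq2 (by positivity) fun z hz => ?_
    rw [sub_zero] at hz
    rw [norm_mul, norm_pow, hnE z hz]
    exact mul_le_mul_of_nonneg_right (hB z hz) (by positivity)
  -- the integral formula
  have key : ∀ w ∈ Omega Fq t, Far Fq t 1 w →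
      HasRes (Fintype.card Fq) (fun z => f z * (expA Fq t (w - z))⁻¹) 0 s⁻¹ (f w) := by
    intro w _ hw
    -- uniform approximation
    have hun : ∀ N : ℕ, max 1 ‖w‖ < ‖t‖ ^ N → ∀ z : C, ‖z‖ = ‖s⁻¹‖ →
        ‖(expA Fq t (w - z))⁻¹ - SN Fq t N (w - z)‖ ≤ (‖t‖ ^ N)⁻¹ := by
      intro N hN z hz
      refine norm_inv_expA_sub ht ?_ (E9 _ (sub_mem_omega hs ht hw hz))
      apply norm_sub_lt_of ((le_max_right _ _).trans_lt hN)
      rw [hz]
      exact hsi.trans ((le_max_left _ _).trans_lt hN)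
    have hlarge : ∀ R : ℝ, ∃ n₀ : ℕ, ∀ n, n₀ ≤ n → R < ‖t‖ ^ n := by
      intro R
      obtain ⟨n₀, h0⟩ := pow_unbounded_of_one_lt R ht
      exact ⟨n₀, fun n hn => h0.trans_le (pow_le_pow_right₀ ht.le hn)⟩
    have hapI : Ap s⁻¹ (fun z => (expA Fq t (w - z))⁻¹) := by
      refine ap_lim fun ε hε => ?_
      obtain ⟨n, hn⟩ := hlarge (max (max 1 ‖w‖) ε⁻¹)
      have hn' := hn n le_rfl
      refine ⟨fun z => SN Fq t n (w - z), ?_, fun z hz => ?_⟩
      · unfold SN
        refine ap_sum _ fun b _ => ?_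
        have h1 : ‖w - pt t b‖ ≠ ‖s⁻¹‖ := (hsi.trans_le (hw _ (pt_mem t b))).ne'
        refine ((ap_poly (r := s⁻¹) (-1 : C[X])).mul hq hq2 hi0 (ap_pole h1)).congr fun z _ => ?_
        have e : (w - z - pt t b)⁻¹ = -(z - (w - pt t b))⁻¹ := by
          rw [← inv_neg]
          congr 1
          ring
        rw [e]
        simp
      · refine (hun n ((le_max_left _ _).trans_lt hn') z hz).trans ?_
        rw [inv_le_comm₀ (by positivity) hε]
        exact ((le_max_right _ _).trans_lt hn').le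
    obtain ⟨-, V, hV⟩ := (hapf.mul hq hq2 hi0 hapI).good hq hq2 hi0
    have hVw : V = f w := by
      have h0 : ∀ ε : ℝ, 0 < ε → ‖f w - V‖ ≤ ε := by
        intro ε hε
        obtain ⟨R, hR⟩ := hsmall ε hε
        obtain ⟨n, hn⟩ := hlarge (max (max (max 1 ‖w‖) R) (B / ε))
        have hn' := hn n le_rfl
        have a1 : max 1 ‖w‖ < ‖t‖ ^ n := ((le_max_left _ _).trans (le_max_left _ _)).trans_lt hn'
        have a2 : R < ‖t‖ ^ n := ((le_max_right _ _).trans (le_max_left _ _)).trans_lt hn'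
        have a3 : B / ε < ‖t‖ ^ n := (le_max_right _ _).trans_lt hn'
        have a4 : ‖t‖ ^ n ≤ ‖s ^ (2 * n + 1)‖ := by
          rw [norm_t_pow hs, norm_pow]
          exact pow_le_pow_right₀ hs1.le (by omega)
        have hwn : ‖w‖ < ‖s ^ (2 * n + 1)‖ := (le_max_right _ _).trans_lt (a1.trans_le a4)
        obtain ⟨v0, V', h1, h2, h3⟩ := cauchy_per hs ht hf hper hw hwn
        have b1 : ‖v0‖ ≤ ε := by
          have hsn : 0 < ‖s ^ (2 * n + 1)‖ := norm_pos_iff.2 (pow_ne_zero _ hs0)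
          have := h1.norm_le hq hq2 (B := ε * ‖s ^ (2 * n + 1)‖⁻¹) (by positivity) fun z hz => by
            rw [sub_zero] at hz
            rw [norm_mul, norm_inv, norm_sub_of_gt (by rw [hz]; exact hwn), hz]
            apply mul_le_mul_of_nonneg_right _ (by positivity)
            refine hR z (outer_mem_omega hs ht hz) fun x hx => ?_
            exact (a2.le.trans a4).trans (far_outer hs ht n hz x hx)
          calc ‖v0‖ ≤ _ := this
            _ = ε := by field_simp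
        have b2 : ‖V - V'‖ ≤ ε := by
          have := HasRes.dist_le hq hq2 (B := B * (‖t‖ ^ (n + 1))⁻¹) (by positivity) (fun z hz => by
            rw [sub_zero] at hz
            rw [← mul_sub, norm_mul]
            apply mul_le_mul (hB z hz) _ (norm_nonneg _) hB0
            exact hun (n + 1) (a1.trans_le (pow_le_pow_right₀ ht.le (by omega))) z hz) hV h2
          refine this.trans ?_
          calc ‖s⁻¹‖ * (B * (‖t‖ ^ (n + 1))⁻¹) ≤ 1 * (B * (‖t‖ ^ n)⁻¹) := by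
                apply mul_le_mul hsi.le _ (by positivity) zero_le_one
                apply mul_le_mul_of_nonneg_left _ hB0
                exact inv_anti₀ (by positivity) (pow_le_pow_right₀ ht.le (by omega))
            _ ≤ ε := by
                rw [one_mul, ← div_eq_mul_inv, div_le_iff₀ (by positivity)]
                rw [div_lt_iff₀ hε] at a3
                linarith
        have e : f w - V = v0 - (V - V') := by rw [h3]; ring
        rw [e]
        exact norm_sub_le_of b1 b2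
      have h1 : ‖f w - V‖ ≤ 0 := le_of_forall_pos_le_add (by simpa using h0)
      exact (sub_eq_zero.1 (norm_le_zero_iff.1 h1)).symm
    rwa [hVw] at hV
  have hnsub : ∀ w : C, Far Fq t 1 w → ∀ z : C, ‖z‖ = ‖s⁻¹‖ →
      ‖expA Fq t w - expA Fq t z‖ = ‖expA Fq t w‖ := fun w hw z hz =>
    norm_sub_of_gt (by
      rw [hnE z hz]
      exact hsi.trans_le (E5 w 1 le_rfl hw))
  refine ⟨fun i => Nat.casesOn i 0 c', rfl, hc', ?_, ?_⟩
  · intro w hw hw1
    have hE1 := E5 w 1 le_rfl hw1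
    have hE0 : expA Fq t w ≠ 0 := by
      rintro h
      rw [h, norm_zero] at hE1
      linarith
    have hEi : ‖(expA Fq t w)⁻¹‖ ≤ 1 := by
      rw [norm_inv]
      exact inv_le_one_of_one_le₀ hE1
    set c : ℕ → C := fun i => Nat.casesOn i 0 c' with hc
    have hc0 : c 0 = 0 := rfl
    have hcS : ∀ i, c (i + 1) = c' i := fun _ => rfl
    -- summability
    have hsum : Summable fun i => c i * (expA Fq t w)⁻¹ ^ i := by
      apply Summable.of_norm_bounded (g := fun i : ℕ => B * ‖s⁻¹‖ ^ i)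
      · exact (summable_geometric_of_lt_one hsp.le hsi).mul_left B
      · intro i
        rw [norm_mul, norm_pow]
        cases i with
        | zero =>
          rw [hc0, norm_zero, zero_mul]
          positivity
        | succ i =>
          calc ‖c (i + 1)‖ * ‖(expA Fq t w)⁻¹‖ ^ (i + 1) ≤ (‖s⁻¹‖ * (B * ‖s⁻¹‖ ^ i)) * 1 :=
                mul_le_mul (hc'n i) (pow_le_one₀ (norm_nonneg _) hEi) (by positivity) (by positivity)
            _ = B * ‖s⁻¹‖ ^ (i + 1) := by ring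
    have hpart : ∀ J : ℕ, ‖f w - ∑ i ∈ Finset.range (J + 1), c i * (expA Fq t w)⁻¹ ^ i‖ ≤
        ‖s⁻¹‖ * (B * ‖s⁻¹‖ ^ J) := by
      intro J
      have h1 : HasRes (Fintype.card Fq) (fun z => ∑ i ∈ Finset.range J,
          (expA Fq t w)⁻¹ ^ (i + 1) * (f z * expA Fq t z ^ i)) 0 s⁻¹
          (∑ i ∈ Finset.range J, (expA Fq t w)⁻¹ ^ (i + 1) * c' i) :=
        HasRes.sum fun i _ => (hc' i).const_mul _
      have h2 : ∑ i ∈ Finset.range (J + 1), c i * (expA Fq t w)⁻¹ ^ i =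
          ∑ i ∈ Finset.range J, (expA Fq t w)⁻¹ ^ (i + 1) * c' i := by
        rw [Finset.sum_range_succ', hc0, zero_mul, add_zero]
        exact Finset.sum_congr rfl fun i _ => by rw [hcS]; ring
      rw [h2]
      refine HasRes.dist_le hq hq2 (by positivity) (fun z hz => ?_) (key w hw hw1) h1
      rw [sub_zero] at hz
      have hne : expA Fq t w - expA Fq t z ≠ 0 := by
        rw [Ne, ← norm_eq_zero, hnsub w hw1 z hz]
        positivity
      have e : f z * (expA Fq t (w - z))⁻¹ - ∑ i ∈ Finset.range J,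
          (expA Fq t w)⁻¹ ^ (i + 1) * (f z * expA Fq t z ^ i) =
          f z * (expA Fq t z ^ J * (expA Fq t w)⁻¹ ^ J * (expA Fq t w - expA Fq t z)⁻¹) := by
        rw [hsub]
        exact geo _ _ _ hE0 hne J
      rw [e, norm_mul]
      apply mul_le_mul (hB z hz) _ (norm_nonneg _) hB0
      rw [norm_mul, norm_mul, norm_pow, norm_pow, hnE z hz, norm_inv (expA Fq t w - expA Fq t z),
        hnsub w hw1 z hz]
      calc ‖s⁻¹‖ ^ J * ‖(expA Fq t w)⁻¹‖ ^ J * ‖expA Fq t w‖⁻¹ ≤ ‖s⁻¹‖ ^ J * 1 * 1 := by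
            apply mul_le_mul _ (inv_le_one_of_one_le₀ hE1) (by positivity) (by positivity)
            exact mul_le_mul_of_nonneg_left (pow_le_one₀ (norm_nonneg _) hEi) (by positivity)
        _ = ‖s⁻¹‖ ^ J := by ring
    have hlim : Tendsto (fun J : ℕ => ∑ i ∈ Finset.range J, c i * (expA Fq t w)⁻¹ ^ i) atTop (𝓝 (f w)) := by
      rw [← tendsto_add_atTop_iff_nat 1, tendsto_iff_norm_sub_tendsto_zero]
      refine squeeze_zero (fun _ => norm_nonneg _) (fun J => ?_)
        (g := fun J => ‖s⁻¹‖ * (B * ‖s⁻¹‖ ^ J)) ?_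
      · rw [norm_sub_rev]
        exact hpart J
      · have := (tendsto_pow_atTop_nhds_zero_of_lt_one hsp.le hsi).const_mul (‖s⁻¹‖ * B)
        rw [mul_zero] at this
        refine this.congr fun J => ?_
        ring
    have h3 := hsum.hasSum
    rwa [tendsto_nhds_unique h3.tendsto_sum_nat hlim] at h3
  · refine ⟨‖s⁻¹‖ * B, fun w hw hw1 => ?_⟩
    have hE1 := E5 w 1 le_rfl hw1
    have h1 := (key w hw hw1).norm_le hq hq2 (B := B * ‖expA Fq t w‖⁻¹) (by positivity) fun z hz => by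
      rw [sub_zero] at hz
      rw [norm_mul, norm_inv, hsub, hnsub w hw1 z hz]
      exact mul_le_mul_of_nonneg_right (hB z hz) (by positivity)
    calc ‖f w‖ * ‖expA Fq t w‖ ≤ ‖s⁻¹‖ * (B * ‖expA Fq t w‖⁻¹) * ‖expA Fq t w‖ :=
          mul_le_mul_of_nonneg_right h1 (norm_nonneg _)
      _ = ‖s⁻¹‖ * B := by
          have : ‖expA Fq t w‖ ≠ 0 := by linarith
          field_simp

end Pool.Agent.J4H4.HP
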