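import Pool.Agent.J4H4.HP.Ue
import Pool.Agent.J4H69.HP.K7
import Pool.Agent.J4H84.HP.Uniq

/-!
# Project HP, stage 2, K8: a function without residues is zero
-/

set_option linter.unusedSectionVars false

open Polynomial Matrix Filter Topology

namespace Pool.Agent.J4H4.HP

open Pool.Agent.TH828.DM
open Pool.Agent.N814.DR (slash SmallAtInfinity)
open Pool.Agent.J4H98.HP (Sta Far Per GB S_VAN)

variable {Fq C : Type} [Field Fq] [Fintype Fq] [NontriviallyNormedField C] [IsUltrametricDist C]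
  [CompleteSpace C] [IsAlgClosed C] [Algebra Fq C] {t s : C} {ι : Pool.Agent.J4H98.HP.Kinf Fq →+* C}

/-- the circles whose radius is not in the value group of `K_∞` -/
lemma far_circ (h : Sta t s ι) (j : ℤ) {z p : C} (hp : p ∈ Kinf Fq t) (hz : ‖z - p‖ = ‖s‖ ^ (2 * j + 1)) :
    Far Fq t (‖s‖ ^ (2 * j + 1)) z := by
  intro x hx
  have hs1 : 1 < ‖s‖ := norm_s h.hs h.ht
  have hs0 : 0 < ‖s‖ := by linarith
  have hne : ‖z - p‖ ≠ ‖p - x‖ := by
    intro he
    rcases Pool.Agent.J4H84.HP.norm_Kinf h ((Kinf Fq t).sub_mem hp hx) with h0 | ⟨n, hn⟩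
    · rw [h0, norm_zero, hz] at he
      have : 0 < ‖s‖ ^ (2 * j + 1) := by positivity
      linarith
    · rw [hz, hn, norm_t_eq h.hs] at he
      have h1 : ‖s‖ ^ (2 * j + 1) = ‖s‖ ^ (2 * n : ℤ) := by
        rw [zpow_mul ‖s‖ 2 n]
        exact_mod_cast he
      have h2 := zpow_right_injective₀ hs0 hs1.ne' h1
      omega
  have e : z - x = (z - p) + (p - x) := by ring
  rw [e, IsUltrametricDist.norm_add_eq_max_of_norm_ne_norm hne, hz]
  exact le_max_left _ _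

lemma exists_far {w : C} (hw : w ∈ Omega Fq t) : ∃ ρ : ℝ, 0 < ρ ∧ Far Fq t ρ w := by
  have hcl : IsClosed ((Kinf Fq t : Subfield C) : Set C) := Subfield.isClosed_topologicalClosure _
  obtain ⟨ε, hε, hb⟩ := Metric.isOpen_iff.1 hcl.isOpen_compl w hw
  refine ⟨ε, hε, fun x hx => ?_⟩
  by_contra hlt
  rw [not_le] at hlt
  have h1 : x ∈ Metric.ball w ε := by
    rw [Metric.mem_ball, dist_eq_norm, norm_sub_rev]
    exact hlt
  exact hb h1 hx

/-- the disc `|z| ≤ |s^(2n+1)|` without the discs of radius `|t^(-m) s⁻¹|` around `K_∞` -/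
lemma regOKm (hs : s ^ 2 = t) (ht : 1 < ‖t‖) (n m : ℕ) :
    RegOK (fun b : Fin (n + m + 1) → Fq => (t ^ m)⁻¹ * pt t b) (s ^ (2 * n + 1)) ((t ^ m)⁻¹ * s⁻¹) := by
  have hs1 := norm_s hs ht
  have hs0 : s ≠ 0 := norm_pos_iff.1 (by linarith)
  have ht0 : t ≠ 0 := norm_pos_iff.1 (by linarith)
  have hm0 : 0 < ‖(t ^ m)⁻¹‖ := norm_pos_iff.2 (inv_ne_zero (pow_ne_zero _ ht0))
  have hm1 : ‖(t ^ m)⁻¹‖ ≤ 1 := by
    rw [norm_inv, norm_pow]
    exact inv_le_one_of_one_le₀ (one_le_pow₀ ht.le)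
  have hsi : ‖s⁻¹‖ < 1 := by
    rw [norm_inv]
    exact inv_lt_one_of_one_lt₀ hs1
  refine ⟨mul_ne_zero (inv_ne_zero (pow_ne_zero _ ht0)) (inv_ne_zero hs0), ?_, ?_, ?_⟩
  · rw [norm_mul, norm_pow]
    calc ‖(t ^ m)⁻¹‖ * ‖s⁻¹‖ ≤ 1 * 1 := mul_le_mul hm1 hsi.le (norm_nonneg _) zero_le_one
      _ ≤ ‖s‖ ^ (2 * n + 1) := by rw [one_mul]; exact one_le_pow₀ hs1.le
  · intro b
    rw [norm_mul]
    calc ‖(t ^ m)⁻¹‖ * ‖pt t b‖ ≤ ‖(t ^ m)⁻¹‖ * ‖t‖ ^ (n + m) :=
          mul_le_mul_of_nonneg_left (norm_pt_le ht b) (norm_nonneg _)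
      _ = ‖t‖ ^ n := by
          rw [norm_inv, norm_pow, pow_add]
          have : ‖t‖ ^ m ≠ 0 := by positivity
          field_simp
      _ < ‖s ^ (2 * n + 1)‖ := by
          rw [norm_t_pow hs, norm_pow]
          exact pow_lt_pow_right₀ hs1 (by omega)
  · intro b c hbc
    rw [← mul_sub, norm_mul, norm_mul, pt_sub]
    apply mul_lt_mul_of_pos_left _ hm0
    exact hsi.trans_le (one_le_norm_pt ht (sub_ne_zero.2 hbc))

lemma regm_sub (hs : s ^ 2 = t) (ht : 1 < ‖t‖) (n m : ℕ) {z : C}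
    (hz : z ∈ Reg (fun b : Fin (n + m + 1) → Fq => (t ^ m)⁻¹ * pt t b) (s ^ (2 * n + 1)) ((t ^ m)⁻¹ * s⁻¹)) :
    z ∈ OmegaN Fq t (n + m + 1 + m) := by
  have ht0 : t ≠ 0 := norm_pos_iff.1 (by linarith)
  have hm : t ^ m ≠ 0 := pow_ne_zero _ ht0
  have hs0 : s ≠ 0 := by
    rintro rfl
    apply ht0
    rw [← hs]; simp
  have htm : 0 < ‖t‖ ^ m := by positivity
  have e1 : ∀ y : C, t ^ m * ((t ^ m)⁻¹ * y) = y := fun y => by field_simp
  have h1 : t ^ m * z ∈ Reg (fun b : Fin (n + m + 1) → Fq => pt t b) (s ^ (2 * (n + m) + 1)) s⁻¹ := by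
    refine ⟨?_, fun b => ?_⟩
    · have e : s ^ (2 * (n + m) + 1) = t ^ m * s ^ (2 * n + 1) := by
        rw [← hs]
        ring
      rw [e, norm_mul, norm_mul]
      exact mul_le_mul_of_nonneg_left hz.1 (norm_nonneg _)
    · have h2 : ‖(t ^ m)⁻¹ * s⁻¹‖ ≤ ‖z - (t ^ m)⁻¹ * pt t b‖ := hz.2 b
      have e : t ^ m * z - pt t b = t ^ m * (z - (t ^ m)⁻¹ * pt t b) := by rw [mul_sub, e1]
      change ‖s⁻¹‖ ≤ ‖t ^ m * z - pt t b‖
      rw [e, norm_mul]
      calc ‖s⁻¹‖ = ‖t ^ m * ((t ^ m)⁻¹ * s⁻¹)‖ := by rw [e1]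
        _ = ‖t ^ m‖ * ‖(t ^ m)⁻¹ * s⁻¹‖ := norm_mul _ _
        _ ≤ _ := mul_le_mul_of_nonneg_left h2 (norm_nonneg _)
  have h2 := reg0_sub hs ht (n + m) h1
  refine ⟨?_, fun x hx => ?_⟩
  · have h3 := h2.1
    rw [norm_mul, norm_pow] at h3
    have h4 : ‖z‖ ≤ ‖t‖ ^ m * ‖z‖ := le_mul_of_one_le_left (norm_nonneg _) (one_le_pow₀ ht.le)
    exact h4.trans (h3.trans (pow_le_pow_right₀ ht.le (by omega)))
  · have hxt : t ^ m * x ∈ Kinf Fq t := (Kinf Fq t).mul_mem ((Kinf Fq t).pow_mem (t_mem_Kinf t) m) hx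
    have h3 := h2.2 _ hxt
    rw [← mul_sub, norm_mul, norm_pow] at h3
    rw [pow_add, mul_inv, ← div_eq_mul_inv, div_le_iff₀ htm, mul_comm ‖z - x‖]
    exact h3

theorem t_VAN : S_VAN := by
  intro Fq C _ _ _ _ _ _ _ t s ι hS f hsupp hf hsmall hGB hres
  have ht := hS.ht
  have hs := hS.hs
  have hq := card_cast Fq C
  have hq2 := two_le_card (F := Fq)
  have hs1 := norm_s hs ht
  have hs0 : s ≠ 0 := norm_pos_iff.1 (by linarith)
  have ht0 : t ≠ 0 := norm_pos_iff.1 (by linarith)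
  obtain ⟨B, hB⟩ := hGB
  funext w
  by_cases hw : w ∈ Omega Fq t
  swap
  · rw [hsupp w hw]; rfl
  obtain ⟨ρ, hρ, hfar⟩ := exists_far hw
  have hmain : ∀ ε : ℝ, 0 < ε → ‖f w‖ ≤ ε := by
    intro ε hε
    obtain ⟨R, hR⟩ := hsmall ε hε
    -- large outer circle
    obtain ⟨n, hn⟩ := pow_unbounded_of_one_lt (max ‖w‖ R) ht
    have a4 : ‖t‖ ^ n ≤ ‖s ^ (2 * n + 1)‖ := by
      rw [norm_t_pow hs, norm_pow]
      exact pow_le_pow_right₀ hs1.le (by omega)
    have hwn : ‖w‖ < ‖s ^ (2 * n + 1)‖ := (le_max_left _ _).trans_lt (hn.trans_le a4)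
    have hRn : R ≤ ‖s ^ (2 * n + 1)‖ := ((le_max_right _ _).trans_lt (hn.trans_le a4)).le
    -- small inner circles
    obtain ⟨m, hm⟩ := pow_unbounded_of_one_lt (max ρ⁻¹ (|B| / ρ ^ 2 / ε)) ht
    have htm : 0 < ‖t‖ ^ m := by positivity
    set r : C := (t ^ m)⁻¹ * s⁻¹ with hr
    have hr0 : r ≠ 0 := mul_ne_zero (inv_ne_zero (pow_ne_zero _ ht0)) (inv_ne_zero hs0)
    have hrn : ‖r‖ = ‖s‖ ^ (2 * (-(m : ℤ) - 1) + 1) := by
      have e : (2 * (-(m : ℤ) - 1) + 1) = -((2 * m + 1 : ℕ) : ℤ) := by push_cast; ring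
      rw [e, _root_.zpow_neg, _root_.zpow_natCast, hr, norm_mul, norm_inv, norm_inv, norm_pow, norm_t_pow hs, pow_succ, mul_inv]
    have hrt : ‖r‖ < (‖t‖ ^ m)⁻¹ := by
      rw [hr, norm_mul, norm_inv, norm_pow, norm_inv]
      exact mul_lt_of_lt_one_right (by positivity) (inv_lt_one_of_one_lt₀ hs1)
    have hrρ : ‖r‖ < ρ := by
      refine hrt.trans ?_
      rw [inv_lt_comm₀ htm hρ]
      exact (le_max_left _ _).trans_lt hm
    have hrB : |B| / ρ ^ 2 * ‖r‖ ≤ ε := by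
      have h1 : |B| / ρ ^ 2 / ε < ‖t‖ ^ m := (le_max_right _ _).trans_lt hm
      rw [div_lt_iff₀ hε] at h1
      calc |B| / ρ ^ 2 * ‖r‖ ≤ (‖t‖ ^ m * ε) * (‖t‖ ^ m)⁻¹ :=
            mul_le_mul h1.le hrt.le (norm_nonneg _) (by positivity)
        _ = ε := by field_simp
    have H := regOKm (Fq := Fq) hs ht n m
    have hpK : ∀ b : Fin (n + m + 1) → Fq, (t ^ m)⁻¹ * pt t b ∈ Kinf Fq t := fun b =>
      (Kinf Fq t).mul_mem ((Kinf Fq t).inv_mem ((Kinf Fq t).pow_mem (t_mem_Kinf t) m)) (pt_mem t b)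
    -- the outer residue
    obtain ⟨-, v0, hv0⟩ := ((ap_outer hs ht hf n).mul hq hq2 (pow_ne_zero _ hs0) (ap_pole hwn.ne)).good
      hq hq2 (pow_ne_zero _ hs0)
    have b1 : ‖v0‖ ≤ ε := by
      have hsn : 0 < ‖s ^ (2 * n + 1)‖ := norm_pos_iff.2 (pow_ne_zero _ hs0)
      have := hv0.norm_le hq hq2 (B := ε * ‖s ^ (2 * n + 1)‖⁻¹) (by positivity) fun z hz => by
        rw [sub_zero] at hz
        rw [norm_mul, norm_inv, norm_sub_of_gt (by rw [hz]; exact hwn), hz]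
        apply mul_le_mul_of_nonneg_right _ (by positivity)
        refine hR z (outer_mem_omega hs ht hz) fun x hx => ?_
        exact hRn.trans (far_outer hs ht n hz x hx)
      calc ‖v0‖ ≤ _ := this
        _ = ε := by field_simp
    -- the inner residues
    have hb : ∀ b : Fin (n + m + 1) → Fq, ∃ v, HasRes (Fintype.card Fq) (fun z => f z * (z - w)⁻¹)
        ((t ^ m)⁻¹ * pt t b) r v ∧ ‖v‖ ≤ ε := by
      intro b
      set p : C := (t ^ m)⁻¹ * pt t b with hp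
      have hpw : ρ ≤ ‖w - p‖ := hfar p (hpK b)
      have hap1 : Ap r (fun z => f (z + p)) := by
        intro δ hδ
        obtain ⟨P, Q, h1, h2⟩ := hf (n + m + 1 + m) δ hδ
        have h3 : ∀ z, ‖z‖ = ‖r‖ → z + p ∈ OmegaN Fq t (n + m + 1 + m) := fun z hz => by
          apply regm_sub hs ht n m
          refine H.inner (i := b) ?_
          change ‖z + p - p‖ = ‖r‖
          rw [add_sub_cancel_right]
          exact hz
        refine ⟨P.comp (X + Polynomial.C p), Q.comp (X + Polynomial.C p), fun z hz => ?_, fun z hz => ?_⟩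
        · have := h1 _ (h3 z hz)
          simpa [eval_comp] using this
        · have := h2 _ (h3 z hz)
          simpa [eval_comp] using this
      have hap2 : Ap r (fun z => (z - (w - p))⁻¹) := ap_pole (hrρ.trans_le hpw).ne'
      obtain ⟨-, v, hv⟩ := (hap1.mul hq hq2 hr0 hap2).good hq hq2 hr0
      have hv' : HasRes (Fintype.card Fq) (fun z => f z * (z - w)⁻¹) p r v := by
        unfold HasRes
        simp only [avg_shift _ _ p]
        refine hv.congr hq2 fun z _ => ?_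
        have e : z + p - w = z - (w - p) := by ring
        rw [e]
      refine ⟨v, hv', ?_⟩
      obtain ⟨u, hu⟩ := (hS.range p).1 (hpK b)
      have h0 := hres ((m : ℤ) + 1) u
      rw [Pool.Agent.J4H69.HP.rad_eq hS, hu, ← hr] at h0
      have h1 := h0.const_mul (p - w)⁻¹
      rw [mul_zero] at h1
      have h2 := HasRes.dist_le hq hq2 (B := |B| * ‖r‖⁻¹ * (‖r‖ * (ρ⁻¹ * ρ⁻¹))) (by positivity)
        (fun z hz => by
          have hzf : Far Fq t ‖r‖ z := by
            rw [hrn]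
            apply far_circ hS _ (hpK b)
            rw [← hrn]
            exact hz
          have hzO : z ∈ Omega Fq t := Pool.Agent.J4H84.HP.omega_of_far (norm_pos_iff.2 hr0) hzf
          have h3 := hB z hzO ‖r‖ (norm_nonneg _) hzf
          have h4 : ‖f z‖ ≤ |B| * ‖r‖⁻¹ := by
            rw [← div_eq_mul_inv, le_div_iff₀ (norm_pos_iff.2 hr0)]
            exact h3.trans (le_abs_self B)
          have h5 : ‖w - p‖ = ‖w - z‖ := by
            have e : w - z = (w - p) - (z - p) := by ring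
            rw [e]
            exact (norm_sub_of_gt (by rw [hz]; exact hrρ.trans_le hpw)).symm
          have hzw : z - w ≠ 0 := by
            rw [← norm_pos_iff, norm_sub_rev, ← h5]
            linarith
          have hpw0 : p - w ≠ 0 := by
            rw [← norm_pos_iff, norm_sub_rev]
            linarith
          have e : f z * (z - w)⁻¹ - (p - w)⁻¹ * f z = -(f z * ((z - p) * ((z - w)⁻¹ * (p - w)⁻¹))) := by
            field_simp
            ring
          rw [e, norm_neg, norm_mul, norm_mul, norm_mul, hz, norm_inv, norm_inv]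
          apply mul_le_mul h4 _ (by positivity) (by positivity)
          apply mul_le_mul_of_nonneg_left _ (norm_nonneg _)
          rw [norm_sub_rev z w, ← h5, norm_sub_rev p w]
          exact mul_le_mul (inv_anti₀ hρ hpw) (inv_anti₀ hρ hpw) (by positivity) (by positivity)) hv' h1
      rw [sub_zero] at h2
      refine h2.trans ?_
      calc ‖r‖ * (|B| * ‖r‖⁻¹ * (‖r‖ * (ρ⁻¹ * ρ⁻¹))) = |B| / ρ ^ 2 * ‖r‖ := by
            have : ‖r‖ ≠ 0 := norm_ne_zero_iff.2 hr0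
            field_simp
        _ ≤ ε := hrB
    choose v hv using hb
    have h3 := cauchy_formula hq hq2 H (g := f) (w := w) (v0 := v0) (v := v) (fun ε hε => by
      obtain ⟨P, Q, h1, h2⟩ := hf (n + m + 1 + m) ε hε
      exact ⟨P, Q, fun z hz => h1 z (regm_sub hs ht n m hz), fun z hz => h2 z (regm_sub hs ht n m hz)⟩) hwn
      (fun b => hrρ.trans_le (hfar _ (hpK b))) hv0 (fun b => (hv b).1)
    rw [h3]
    apply norm_sub_le_of b1
    exact IsUltrametricDist.norm_sum_le_of_forall_le_of_nonneg hε.le fun b _ => (hv b).2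
  have h1 : ‖f w‖ ≤ 0 := le_of_forall_pos_le_add (by simpa using hmain)
  exact norm_le_zero_iff.1 h1

end Pool.Agent.J4H4.HP
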